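import Pool.Agent.helper48.DH.SpecY

set_option autoImplicit false

open Filter Topology MeasureTheory
open scoped commutatorElement

namespace Pool.Agent.helper90.DH

open Pool.Agent.helper64.D2

theorem yMOL_int {κ : ℝ → ℝ} (hκc : Continuous κ) (hκs : ∀ x, x ∉ Set.Icc (-1 : ℝ) 1 → κ x = 0) : Integrable κ :=
  hκc.integrable_of_hasCompactSupport (HasCompactSupport.intro isCompact_Icc (fun x hx => hκs x hx))

theorem yMOL_int2 {κ : ℝ → ℝ} (hκi : Integrable κ) {w : ℝ → ℝ} (hw : Measurable w) {C : ℝ} (hC : ∀ x, |w x| ≤ C) : Integrable (fun t => κ t * w t) := by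
  refine (hκi.norm.mul_const C).mono' (hκi.aestronglyMeasurable.mul hw.aestronglyMeasurable) (Eventually.of_forall fun t => ?_)
  rw [norm_mul]
  exact mul_le_mul_of_nonneg_left (hC t) (norm_nonneg _)

theorem yMOL : yMOL_stmt := by
  intro κ hκ
  obtain ⟨hκd, hκ0, hκe, hκs, hκ1⟩ := hκ
  have hκc : Continuous κ := hκd.continuous
  have hκi : Integrable κ := yMOL_int hκc hκs
  obtain ⟨L, hL⟩ := hκd.lipschitzWith_of_hasCompactSupport (HasCompactSupport.intro isCompact_Icc (fun x hx => hκs x hx)) one_ne_zero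
  refine ⟨max 1 (4 * L), le_max_left _ _, ?_⟩
  intro v C h hv hC hh
  obtain ⟨hvm, -, -⟩ := hv
  have hC0 : 0 ≤ C := (abs_nonneg _).trans (hC 0)
  have hvm' : ∀ x : ℝ, Measurable (fun t => v (x - h * t)) := fun x =>
    hvm.comp (measurable_const.sub (measurable_const.mul measurable_id))
  have hI : ∀ x : ℝ, Integrable (fun t => κ t * v (x - h * t)) := fun x => yMOL_int2 hκi (hvm' x) (fun t => hC _)
  have hb : ∀ x, |mol κ h v x| ≤ C := by
    intro x
    have h1 : ‖∫ t, κ t * v (x - h * t)‖ ≤ ∫ t, κ t * C := by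
      refine norm_integral_le_of_norm_le (hκi.mul_const C) (Eventually.of_forall fun t => ?_)
      rw [norm_mul, Real.norm_of_nonneg (hκ0 t)]
      exact mul_le_mul_of_nonneg_left (hC _) (hκ0 t)
    rw [integral_mul_const, hκ1, one_mul] at h1
    exact h1
  have hLip : ∀ x x', |mol κ h v x - mol κ h v x'| ≤ max 1 (4 * (L : ℝ)) * C / h * |x - x'| := by
    intro x x'
    set δ := (x' - x) / h with hδ
    have e1 : mol κ h v x' = ∫ t, κ (t + δ) * v (x - h * t) := by
      unfold mol
      rw [← integral_add_right_eq_self (fun t => κ t * v (x' - h * t)) δ]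
      refine integral_congr_ae (Eventually.of_forall fun t => ?_)
      have : x' - h * (t + δ) = x - h * t := by
        rw [hδ]
        field_simp
        ring
      simp only [this]
    have hκi' : Integrable (fun t => κ (t + δ)) := hκi.comp_add_right δ
    have hI' : Integrable (fun t => κ (t + δ) * v (x - h * t)) := yMOL_int2 hκi' (hvm' x) (fun t => hC _)
    have e2 : mol κ h v x - mol κ h v x' = ∫ t, (κ t - κ (t + δ)) * v (x - h * t) := by
      rw [e1]
      unfold mol
      rw [← integral_sub (hI x) hI']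
      refine integral_congr_ae (Eventually.of_forall fun t => ?_)
      simp only
      ring
    have hind : ∀ a b : ℝ, Integrable (Set.indicator (Set.Icc a b) (fun _ => (1 : ℝ))) := fun a b =>
      (integrable_indicator_iff measurableSet_Icc).2 (integrableOn_const (by simp) (by simp))
    have hindv : ∀ a b : ℝ, a ≤ b → ∫ t, Set.indicator (Set.Icc a b) (fun _ => (1 : ℝ)) t = b - a := by
      intro a b hab
      rw [integral_indicator measurableSet_Icc]
      simp [hab]
    have h1 : ‖∫ t, (κ t - κ (t + δ)) * v (x - h * t)‖ ≤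
        ∫ t, (L * |δ| * C) * (Set.indicator (Set.Icc (-1) 1) (fun _ => (1 : ℝ)) t + Set.indicator (Set.Icc (-1 - δ) (1 - δ)) (fun _ => (1 : ℝ)) t) := by
      refine norm_integral_le_of_norm_le (((hind _ _).add (hind _ _)).const_mul _) (Eventually.of_forall fun t => ?_)
      rw [norm_mul]
      have h2 : ‖κ t - κ (t + δ)‖ ≤ L * |δ| := by
        have h3 := hL.dist_le_mul t (t + δ)
        rw [Real.dist_eq, Real.dist_eq] at h3
        have h4 : |t - (t + δ)| = |δ| := by
          rw [show t - (t + δ) = -δ by ring, abs_neg]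
        rw [h4] at h3
        exact h3
      have h5 : ‖v (x - h * t)‖ ≤ C := hC _
      have hLδ : 0 ≤ (L : ℝ) * |δ| := mul_nonneg L.2 (abs_nonneg _)
      have hn1 : 0 ≤ Set.indicator (Set.Icc (-1 : ℝ) 1) (fun _ => (1 : ℝ)) t := Set.indicator_nonneg (fun _ _ => zero_le_one) _
      have hn2 : 0 ≤ Set.indicator (Set.Icc (-1 - δ) (1 - δ)) (fun _ => (1 : ℝ)) t := Set.indicator_nonneg (fun _ _ => zero_le_one) _
      by_cases c1 : t ∈ Set.Icc (-1 : ℝ) 1
      · rw [Set.indicator_of_mem c1]
        calc ‖κ t - κ (t + δ)‖ * ‖v (x - h * t)‖ ≤ (L * |δ|) * C := mul_le_mul h2 h5 (norm_nonneg _) hLδ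
          _ ≤ _ := by
            have : 0 ≤ (L * |δ| * C) * Set.indicator (Set.Icc (-1 - δ) (1 - δ)) (fun _ => (1 : ℝ)) t := mul_nonneg (mul_nonneg hLδ hC0) hn2
            linarith
      · by_cases c2 : t ∈ Set.Icc (-1 - δ) (1 - δ)
        · rw [Set.indicator_of_mem c2]
          calc ‖κ t - κ (t + δ)‖ * ‖v (x - h * t)‖ ≤ (L * |δ|) * C := mul_le_mul h2 h5 (norm_nonneg _) hLδ
            _ ≤ _ := by
              have : 0 ≤ (L * |δ| * C) * Set.indicator (Set.Icc (-1 : ℝ) 1) (fun _ => (1 : ℝ)) t := mul_nonneg (mul_nonneg hLδ hC0) hn1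
              linarith
        · have k1 : κ t = 0 := hκs t c1
          have k2 : κ (t + δ) = 0 := by
            refine hκs _ (fun hmem => c2 ?_)
            rw [Set.mem_Icc] at hmem ⊢
            constructor <;> linarith [hmem.1, hmem.2]
          rw [k1, k2, sub_zero, norm_zero, zero_mul]
          exact mul_nonneg (mul_nonneg hLδ hC0) (add_nonneg hn1 hn2)
    rw [integral_const_mul, integral_add (hind _ _) (hind _ _), hindv _ _ (by norm_num), hindv _ _ (by linarith)] at h1
    rw [e2]
    rw [Real.norm_eq_abs] at h1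
    refine h1.trans ?_
    have h6 : |δ| = |x - x'| / h := by
      rw [hδ, abs_div, abs_of_pos hh, abs_sub_comm]
    rw [h6]
    have h7 : (L : ℝ) * (|x - x'| / h) * C * (1 - -1 + (1 - δ - (-1 - δ))) = 4 * L * C / h * |x - x'| := by
      field_simp
      ring
    rw [h7]
    have h8 : 4 * (L : ℝ) ≤ max 1 (4 * (L : ℝ)) := le_max_right _ _
    have h9 : 0 ≤ C / h * |x - x'| := mul_nonneg (div_nonneg hC0 hh.le) (abs_nonneg _)
    calc 4 * (L : ℝ) * C / h * |x - x'| = 4 * (L : ℝ) * (C / h * |x - x'|) := by ring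
      _ ≤ max 1 (4 * (L : ℝ)) * (C / h * |x - x'|) := mul_le_mul_of_nonneg_right h8 h9
      _ = _ := by ring
  refine ⟨?_, hb, hLip, ?_⟩
  · have hK : 0 ≤ max 1 (4 * (L : ℝ)) * C / h := div_nonneg (mul_nonneg (zero_le_one.trans (le_max_left _ _)) hC0) hh.le
    exact (LipschitzWith.of_dist_le_mul (K := ⟨max 1 (4 * (L : ℝ)) * C / h, hK⟩) (fun x y => hLip x y)).continuous
  · intro a b hab x hx
    unfold mol
    rw [show (fun t => κ t * v (x - h * t)) = fun _ => (0 : ℝ) from ?_, integral_zero]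
    funext t
    by_cases ht : t ∈ Set.Icc (-1 : ℝ) 1
    · rw [hab _ (fun hmem => hx ?_), mul_zero]
      rw [Set.mem_Icc] at hmem ht ⊢
      constructor <;> nlinarith [hmem.1, hmem.2, ht.1, ht.2]
    · rw [hκs t ht, zero_mul]

end Pool.Agent.helper90.DH
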