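import Pool.Agent.helper16.DH.C

/-!
# The dense end with explicit constants
-/

namespace Pool.Agent.helper16.DH
open Finset Pool.Agent.helper65.HC Real

/-- `μ (L - 2 log₂(L+1)) ≤ d - λ_d(m) `, with `μ = 1 - m / 2 ^ d`, `L = log₂(1/μ)` -/
theorem dense_lower (d m : ℕ) (h1 : 1 ≤ m) (h2 : m < 2 ^ d) :
    (1 - (m : ℝ) / 2 ^ d) * (logb 2 (1 / (1 - (m : ℝ) / 2 ^ d)) -
      2 * logb 2 (logb 2 (1 / (1 - (m : ℝ) / 2 ^ d)) + 1)) ≤ d - lam d m := by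
  obtain ⟨w, hw⟩ := Nat.exists_eq_add_of_lt h2
  obtain ⟨⟨U, hU, ht⟩, _⟩ := lam_isGreatest d m h1 h2.le
  have hN : (0 : ℝ) < 2 ^ d := by positivity
  have hww : ((w + 1 : ℕ) : ℝ) = 2 ^ d - m := by
    have : ((2 ^ d : ℕ) : ℝ) = ((m + w + 1 : ℕ) : ℝ) := by rw [hw]
    push_cast at this ⊢
    linarith
  have key := lower_gap ht.1 (w + 1) (by omega) (by omega)
  have hw0 : (0 : ℝ) < ((w + 1 : ℕ) : ℝ) := by positivity
  have e1 : ((w + 1 : ℕ) : ℝ) / 2 ^ d = 1 - (m : ℝ) / 2 ^ d := by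
    rw [hww]; field_simp
  have e2 : (2 : ℝ) ^ d / ((w + 1 : ℕ) : ℝ) = 1 / (1 - (m : ℝ) / 2 ^ d) := by
    rw [← e1]; field_simp
  rw [e1, e2] at key
  exact key

/-- `d - λ_d(m) ≤ μ (L + 2)` -/
theorem dense_upper (d m : ℕ) (h1 : 2 ^ d ≤ 2 * m) (h2 : m < 2 ^ d) :
    d - lam d m ≤ (1 - (m : ℝ) / 2 ^ d) * (logb 2 (1 / (1 - (m : ℝ) / 2 ^ d)) + 2) := by
  obtain ⟨w, hw⟩ := Nat.exists_eq_add_of_lt h2
  have hN : (0 : ℝ) < 2 ^ d := by positivity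
  have hww : ((w + 1 : ℕ) : ℝ) = 2 ^ d - m := by
    have : ((2 ^ d : ℕ) : ℝ) = ((m + w + 1 : ℕ) : ℝ) := by rw [hw]
    push_cast at this ⊢
    linarith
  have key := upper_gap d (w + 1) (by omega) (by omega)
  have hm : 2 ^ d - (w + 1) = m := by omega
  have hw0 : (0 : ℝ) < ((w + 1 : ℕ) : ℝ) := by positivity
  have e1 : ((w + 1 : ℕ) : ℝ) / 2 ^ d = 1 - (m : ℝ) / 2 ^ d := by
    rw [hww]; field_simp
  have e2 : (2 : ℝ) ^ d / ((w + 1 : ℕ) : ℝ) = 1 / (1 - (m : ℝ) / 2 ^ d) := by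
    rw [← e1]; field_simp
  rw [e1, e2, hm] at key
  exact key

end Pool.Agent.helper16.DH
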