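import Pool.Agent.helper65.HC.Exact

/-!
# A two-point induction for functionals `- G log S` on the cube
-/

namespace Pool.Agent.helper16.DH
open Finset Pool.Agent.helper65.HC Real

/-- the induction step, when the half cube `0` has the larger `S` -/
lemma step (g s : ℝ → ℝ)
    (s0 : ∀ x, 0 < x → x ≤ 1 → 0 < s x) (g00 : g 0 = 0) (s00 : s 0 = 0)
    (top : ∀ x, 0 ≤ x → x ≤ 1 → log 2 * g x ≤ x ^ 2)
    (P : ∀ z, 0 ≤ z → z < 1 → ∃ Λ : ℝ, ∀ x y, 0 ≤ x → x ≤ 1 → 0 ≤ y → y ≤ 1 →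
      log (1 + z) * g x + log (1 - z) * g y + Λ * ((1 - z) * s x - (1 + z) * s y) ≤ (x - y) ^ 2)
    (d : ℕ) (f0 f1 : V d → ℝ) (a0 : ∀ x, 0 ≤ f0 x) (b0 : ∀ x, f0 x ≤ 1)
    (a1 : ∀ x, 0 ≤ f1 x) (b1 : ∀ x, f1 x ≤ 1)
    (h0 : - 2 * (∑ x, g (f0 x)) * log ((∑ x, s (f0 x)) / 2 ^ d) ≤ D f0)
    (h1 : - 2 * (∑ x, g (f1 x)) * log ((∑ x, s (f1 x)) / 2 ^ d) ≤ D f1)
    (hle : ∑ x, s (f1 x) ≤ ∑ x, s (f0 x)) :
    - 2 * ((∑ x, g (f0 x)) + ∑ x, g (f1 x)) *
      log (((∑ x, s (f0 x)) + ∑ x, s (f1 x)) / 2 ^ (d + 1)) ≤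
      D f0 + D f1 + 2 * ∑ x, (f0 x - f1 x) ^ 2 := by
  have snn : ∀ x, 0 ≤ x → x ≤ 1 → 0 ≤ s x := by
    intro x hx hx1
    rcases hx.eq_or_lt with h | h
    · rw [← h, s00]
    · exact (s0 x h hx1).le
  have szero : ∀ f : V d → ℝ, (∀ x, 0 ≤ f x) → (∀ x, f x ≤ 1) → ∑ x, s (f x) = 0 →
      ∀ x, f x = 0 := by
    intro f a b h x
    have := (Finset.sum_eq_zero_iff_of_nonneg (fun x _ => snn (f x) (a x) (b x))).1 h x (mem_univ x)
    by_contra hne
    have hpos : 0 < f x := lt_of_le_of_ne (a x) (Ne.symm hne)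
    exact (s0 (f x) hpos (b x)).ne' this
  have hS1 : 0 ≤ ∑ x, s (f1 x) := Finset.sum_nonneg (fun x _ => snn _ (a1 x) (b1 x))
  have hN : (0 : ℝ) < 2 ^ d := by positivity
  rcases hS1.eq_or_lt with hz | hpos
  · have hf1 := szero f1 a1 b1 hz.symm
    have hG1 : ∑ x, g (f1 x) = 0 := Finset.sum_eq_zero (fun x _ => by rw [hf1 x, g00])
    have hsum : ∑ x, (f0 x - f1 x) ^ 2 = ∑ x, f0 x ^ 2 :=
      Finset.sum_congr rfl (fun x _ => by rw [hf1 x, sub_zero])
    rw [← hz, hG1, hsum, add_zero, add_zero]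
    have hD1 := D_nonneg f1
    have hS0 : 0 ≤ ∑ x, s (f0 x) := Finset.sum_nonneg (fun x _ => snn _ (a0 x) (b0 x))
    rcases hS0.eq_or_lt with hz0 | hpos0
    · have hf0 := szero f0 a0 b0 hz0.symm
      have hG0 : ∑ x, g (f0 x) = 0 := Finset.sum_eq_zero (fun x _ => by rw [hf0 x, g00])
      rw [hG0]
      have := D_nonneg f0
      have h2 : 0 ≤ ∑ x, f0 x ^ 2 := Finset.sum_nonneg (fun x _ => sq_nonneg _)
      have e : -2 * (0 : ℝ) * log ((∑ x, s (f0 x)) / 2 ^ (d + 1)) = 0 := by ring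
      rw [e]; linarith
    · have hlog : log ((∑ x, s (f0 x)) / 2 ^ (d + 1)) = log ((∑ x, s (f0 x)) / 2 ^ d) - log 2 := by
        rw [pow_succ, ← div_div, log_div (by positivity) (by norm_num)]
      have hT : log 2 * ∑ x, g (f0 x) ≤ ∑ x, f0 x ^ 2 := by
        rw [Finset.mul_sum]
        exact Finset.sum_le_sum (fun x _ => top _ (a0 x) (b0 x))
      rw [hlog]
      have e : -2 * (∑ x, g (f0 x)) * (log ((∑ x, s (f0 x)) / 2 ^ d) - log 2) =
          -2 * (∑ x, g (f0 x)) * log ((∑ x, s (f0 x)) / 2 ^ d) + 2 * (log 2 * ∑ x, g (f0 x)) := by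
        ring
      rw [e]; linarith
  · have hpos0 : 0 < ∑ x, s (f0 x) := lt_of_lt_of_le hpos hle
    set S0 := ∑ x, s (f0 x) with hS0d
    set S1 := ∑ x, s (f1 x) with hS1d
    set z := (S0 - S1) / (S0 + S1) with hzd
    have hsp : 0 < S0 + S1 := by linarith
    have hz0 : 0 ≤ z := div_nonneg (by linarith) hsp.le
    have hz1 : z < 1 := by rw [hzd, div_lt_one hsp]; linarith
    obtain ⟨Λ, hΛ⟩ := P z hz0 hz1
    have e1 : 1 + z = (S0 / 2 ^ d) / ((S0 + S1) / 2 ^ (d + 1)) := by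
      rw [hzd, pow_succ]; field_simp; ring
    have e2 : 1 - z = (S1 / 2 ^ d) / ((S0 + S1) / 2 ^ (d + 1)) := by
      rw [hzd, pow_succ]; field_simp; ring
    have l1 : log (1 + z) = log (S0 / 2 ^ d) - log ((S0 + S1) / 2 ^ (d + 1)) := by
      rw [e1, log_div (by positivity) (by positivity)]
    have l2 : log (1 - z) = log (S1 / 2 ^ d) - log ((S0 + S1) / 2 ^ (d + 1)) := by
      rw [e2, log_div (by positivity) (by positivity)]
    have hsum : ∑ x, (log (1 + z) * g (f0 x) + log (1 - z) * g (f1 x)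
        + Λ * ((1 - z) * s (f0 x) - (1 + z) * s (f1 x))) ≤ ∑ x, (f0 x - f1 x) ^ 2 :=
      Finset.sum_le_sum (fun x _ => hΛ _ _ (a0 x) (b0 x) (a1 x) (b1 x))
    have hexp : ∑ x, (log (1 + z) * g (f0 x) + log (1 - z) * g (f1 x)
        + Λ * ((1 - z) * s (f0 x) - (1 + z) * s (f1 x))) =
        log (1 + z) * (∑ x, g (f0 x)) + log (1 - z) * (∑ x, g (f1 x))
        + Λ * ((1 - z) * S0 - (1 + z) * S1) := by
      rw [Finset.sum_add_distrib, Finset.sum_add_distrib, ← Finset.mul_sum, ← Finset.mul_sum,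
        ← Finset.mul_sum, Finset.sum_sub_distrib, ← Finset.mul_sum, ← Finset.mul_sum]
    have hzero : (1 - z) * S0 - (1 + z) * S1 = 0 := by
      rw [hzd]; field_simp; ring
    rw [hexp, hzero, mul_zero, add_zero, l1, l2] at hsum
    nlinarith [h0, h1, hsum]

/-- the abstract two point induction -/
theorem induct (g s : ℝ → ℝ)
    (s0 : ∀ x, 0 < x → x ≤ 1 → 0 < s x) (g00 : g 0 = 0) (s00 : s 0 = 0)
    (base : ∀ x, 0 < x → x ≤ 1 → 0 ≤ g x * log (s x))
    (top : ∀ x, 0 ≤ x → x ≤ 1 → log 2 * g x ≤ x ^ 2)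
    (P : ∀ z, 0 ≤ z → z < 1 → ∃ Λ : ℝ, ∀ x y, 0 ≤ x → x ≤ 1 → 0 ≤ y → y ≤ 1 →
      log (1 + z) * g x + log (1 - z) * g y + Λ * ((1 - z) * s x - (1 + z) * s y) ≤ (x - y) ^ 2) :
    ∀ (d : ℕ) (f : V d → ℝ), (∀ x, 0 ≤ f x) → (∀ x, f x ≤ 1) →
      - 2 * (∑ x, g (f x)) * log ((∑ x, s (f x)) / 2 ^ d) ≤ D f
  | 0, f, a, b => by
    have hD : D f = 0 := by unfold D; simp
    rw [hD]
    let x0 : V 0 := fun i => i.elim0
    rw [Fintype.sum_subsingleton (fun x => g (f x)) x0, Fintype.sum_subsingleton (fun x => s (f x)) x0,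
      pow_zero, div_one]
    rcases (a x0).eq_or_lt with h | h
    · rw [← h, g00]; simp
    · have := base _ h (b x0)
      linarith
  | d + 1, f, a, b => by
    have h0 := induct g s s0 g00 s00 base top P d (fun z => f (Fin.cons false z))
      (fun x => a _) (fun x => b _)
    have h1 := induct g s s0 g00 s00 base top P d (fun z => f (Fin.cons true z))
      (fun x => a _) (fun x => b _)
    rw [D_cons, helper65.HC.sum_cons, helper65.HC.sum_cons]
    rcases le_total (∑ z : V d, s (f (Fin.cons true z))) (∑ z : V d, s (f (Fin.cons false z)))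
      with h | h
    · exact step g s s0 g00 s00 top P d _ _ (fun x => a _) (fun x => b _) (fun x => a _)
        (fun x => b _) h0 h1 h
    · have := step g s s0 g00 s00 top P d _ _ (fun x => a _) (fun x => b _) (fun x => a _)
        (fun x => b _) h1 h0 h
      have e : ∑ z : V d, (f (Fin.cons true z) - f (Fin.cons false z)) ^ 2
          = ∑ z : V d, (f (Fin.cons false z) - f (Fin.cons true z)) ^ 2 :=
        Finset.sum_congr rfl (fun z _ => by ring)
      rw [e] at this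
      rw [add_comm (∑ z : V d, g (f (Fin.cons false z))), add_comm (∑ z : V d, s (f (Fin.cons false z)))]
      linarith

end Pool.Agent.helper16.DH
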