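import Pool.Agent.helper16.DH.A

/-!
# The functional form of the edge-isoperimetric inequality
-/

namespace Pool.Agent.helper16.DH
open Finset Pool.Agent.helper65.HC Real

/-- `(1 + z) log2 (1 + z) ≤ 2 z` -/
lemma log2_le (z : ℝ) (h0 : 0 ≤ z) (h1 : z < 1) : log (1 + z) / log 2 ≤ 2 * z / (1 + z) := by
  have hl : 0 < log 2 := log_pos (by norm_num)
  have hc := (convexOn_mul_log).2 (Set.mem_Ici.2 (zero_le_one)) (Set.mem_Ici.2 (zero_le_two))
    (show 0 ≤ 1 - z by linarith) h0 (by ring)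
  have e : (1 - z) • (1 : ℝ) + z • 2 = 1 + z := by simp [smul_eq_mul]; ring
  rw [e] at hc
  simp only [smul_eq_mul, log_one, mul_zero, zero_add] at hc
  rw [div_le_div_iff₀ hl (by linarith)]
  linarith

/-- the two functions -/
noncomputable def gg (e : ℝ) (x : ℝ) : ℝ := if x = 1 then (1 - e) / log 2 else 0
/-- the two functions -/
noncomputable def ss (e : ℝ) (x : ℝ) : ℝ := if x = 1 then 1 else x ^ 2 * ((1 + e) / e)

lemma pointwise (e : ℝ) (he : 0 < e) (he1 : e ≤ 1) (z : ℝ) (h0 : 0 ≤ z) (h1 : z < 1) :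
    ∃ Λ : ℝ, ∀ x y, 0 ≤ x → x ≤ 1 → 0 ≤ y → y ≤ 1 →
      log (1 + z) * gg e x + log (1 - z) * gg e y + Λ * ((1 - z) * ss e x - (1 + z) * ss e y)
        ≤ (x - y) ^ 2 := by
  have hl : 0 < log 2 := log_pos (by norm_num)
  have hLu := log2_le z h0 h1
  have hz1 : (0 : ℝ) < 1 + z := by linarith
  set L := log (1 + z) / log 2 with hL
  have hL0 : 0 ≤ L := div_nonneg (log_nonneg (by linarith)) hl.le
  set u := 2 * z / (1 + z) with hu
  have hu0 : 0 ≤ u := by positivity
  have hu1 : u < 1 := by rw [hu, div_lt_one hz1]; linarith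
  have hw : (1 - z) / (1 + z) = 1 - u := by rw [hu]; field_simp; ring
  set θ := (1 - e ^ 2) * L with hθ
  have he2 : 0 ≤ 1 - e ^ 2 := by nlinarith
  have hθ0 : 0 ≤ θ := mul_nonneg he2 hL0
  have hθL : θ ≤ L := by rw [hθ]; nlinarith [sq_nonneg e]
  have hθu : θ ≤ u := hθL.trans hLu
  have hθ1 : 0 < 1 - θ := by linarith
  set c := - log (1 - z) with hc
  set a := log (1 + z) with ha
  have hac : a ≤ c := by
    have : log (1 + z) + log (1 - z) ≤ 0 := by
      rw [← log_mul (by linarith) (by linarith)]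
      exact log_nonpos (by nlinarith) (by nlinarith)
    linarith
  have haL : a / log 2 = L := rfl
  have ha' : a = L * log 2 := by rw [← haL]; field_simp
  set k := c / log 2 with hk
  have hkL : L ≤ k := by rw [← haL, hk]; exact div_le_div_of_nonneg_right hac hl.le
  have hc' : log (1 - z) = - (k * log 2) := by rw [hk, hc]; field_simp
  refine ⟨θ / (1 - θ) * (e / (1 + e)) / (1 + z), fun x y hx hx1 hy hy1 => ?_⟩
  have hΛ1 : θ / (1 - θ) * (e / (1 + e)) / (1 + z) * (1 - z) =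
      θ * (e / (1 + e)) * (1 - u) / (1 - θ) := by
    rw [← hw]; ring
  have hΛ2 : θ / (1 - θ) * (e / (1 + e)) / (1 + z) * (1 + z) = θ * (e / (1 + e)) / (1 - θ) := by
    field_simp
  have hsplit : θ / (1 - θ) * (e / (1 + e)) / (1 + z) * ((1 - z) * ss e x - (1 + z) * ss e y) =
      (θ * (e / (1 + e)) * (1 - u) * ss e x - θ * (e / (1 + e)) * ss e y) / (1 - θ) := by
    rw [mul_sub, ← mul_assoc, ← mul_assoc, hΛ1, hΛ2]; ring
  rw [hsplit]
  have hςθ : θ * (e / (1 + e)) = e * (1 - e) * L := by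
    rw [hθ]; field_simp; ring
  rw [← sub_nonneg]
  have hgoal : (x - y) ^ 2 - (a * gg e x + log (1 - z) * gg e y +
      (θ * (e / (1 + e)) * (1 - u) * ss e x - θ * (e / (1 + e)) * ss e y) / (1 - θ)) =
      ((1 - θ) * (x - y) ^ 2 - (1 - θ) * (L * (log 2 * gg e x)) +
        (1 - θ) * (k * (log 2 * gg e y))
        - θ * (e / (1 + e)) * (1 - u) * ss e x + θ * (e / (1 + e)) * ss e y) / (1 - θ) := by
    rw [hc', ha']; field_simp; ring
  rw [hgoal]
  refine div_nonneg ?_ hθ1.le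
  have s1 : ss e 1 = 1 := by simp [ss]
  have g1 : log 2 * gg e 1 = 1 - e := by simp only [gg, if_true]; field_simp
  have sx : ∀ t, t ≠ 1 → θ * (e / (1 + e)) * ss e t = θ * t ^ 2 := by
    intro t ht; simp only [ss, if_neg ht]; field_simp
  have sx' : ∀ t, t ≠ 1 → θ * (e / (1 + e)) * (1 - u) * ss e t = θ * (1 - u) * t ^ 2 := by
    intro t ht; simp only [ss, if_neg ht]; field_simp
  have gx : ∀ t, t ≠ 1 → gg e t = 0 := by intro t ht; simp only [gg, if_neg ht]
  have hLe : 0 ≤ e * (1 - e) * L := by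
    have : 0 ≤ 1 - e := by linarith
    positivity
  by_cases hx' : x = 1
  · by_cases hy' : y = 1
    · rw [hx', hy', s1, g1, hςθ]
      have e1 : 0 ≤ (1 - θ) * (1 - e) * (k - L) :=
        mul_nonneg (mul_nonneg hθ1.le (by linarith)) (by linarith)
      have e2 : 0 ≤ e * (1 - e) * L * u := mul_nonneg hLe hu0
      nlinarith
    · rw [hx', s1, g1, sx y hy', gx y hy', hςθ]
      have e1 : 0 ≤ e * (1 - e) * L * (u - θ) := mul_nonneg hLe (by linarith)
      have e2 : 0 ≤ (y - (1 - θ)) ^ 2 := sq_nonneg _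
      have e3 : (1 - θ) * (1 - y) ^ 2 + θ * y ^ 2 = (y - (1 - θ)) ^ 2 + θ * (1 - θ) := by ring
      have e4 : θ * (1 - θ) = (1 - e ^ 2) * L * (1 - θ) := by rw [hθ]
      nlinarith
  · by_cases hy' : y = 1
    · rw [hy', s1, g1, sx' x hx', gx x hx', hςθ]
      have hx2 : x ^ 2 ≤ 1 := by nlinarith
      have e0 : 0 ≤ (1 - θ) * (x - 1) ^ 2 := mul_nonneg hθ1.le (sq_nonneg _)
      have e1 : θ * (1 - u) * x ^ 2 ≤ θ * (1 - u) := by
        have : 0 ≤ θ * (1 - u) := mul_nonneg hθ0 (by linarith)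
        nlinarith
      have e2 : (1 - θ) * (L * (1 - e)) ≤ (1 - θ) * (k * (1 - e)) :=
        mul_le_mul_of_nonneg_left (mul_le_mul_of_nonneg_right hkL (by linarith)) hθ1.le
      have e3 : 0 ≤ (1 - e) * L * ((1 + e) * u - θ) := by
        refine mul_nonneg (mul_nonneg (by linarith) hL0) ?_
        nlinarith
      have e4 : (1 - θ) * (L * (1 - e)) + e * (1 - e) * L - (1 - e ^ 2) * L * (1 - u)
          = (1 - e) * L * ((1 + e) * u - θ) := by ring
      have e5 : θ * (1 - u) = (1 - e ^ 2) * L * (1 - u) := by rw [hθ]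
      nlinarith
    · rw [sx' x hx', gx x hx', sx y hy', gx y hy']
      have e1 : 0 ≤ θ * (u - θ) * x ^ 2 :=
        mul_nonneg (mul_nonneg hθ0 (by linarith)) (sq_nonneg _)
      have e2 : 0 ≤ (y - (1 - θ) * x) ^ 2 := sq_nonneg _
      nlinarith

/-- Functional form of the edge-isoperimetric inequality. -/
theorem functional (d : ℕ) (f : V d → ℝ) (hf0 : ∀ x, 0 ≤ f x) (hf1 : ∀ x, f x ≤ 1)
    (e : ℝ) (he : 0 < e) (he1 : e ≤ 1) (W : Finset (V d)) (hW : ∀ x ∈ W, f x = 1)
    (hne : W.Nonempty) :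
    2 * (1 - e) * W.card * log (e / (1 + e) * (2 ^ d / ∑ x, f x ^ 2)) ≤ log 2 * D f := by
  classical
  have hl : 0 < log 2 := log_pos (by norm_num)
  have hmain := induct (gg e) (ss e) (fun x hx hx1 => by
      unfold ss; split_ifs
      · norm_num
      · positivity)
    (by simp [gg]) (by simp [ss]) (fun x hx hx1 => by
      unfold gg ss
      split_ifs
      · simp
      · simp)
    (fun x hx hx1 => by
      unfold gg; split_ifs with h
      · rw [h, mul_div_cancel₀ _ hl.ne']; linarith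
      · rw [mul_zero]; exact sq_nonneg _)
    (pointwise e he he1) d f hf0 hf1
  have hce : 0 < (1 + e) / e := by positivity
  have hce1 : 1 ≤ (1 + e) / e := by rw [le_div_iff₀ he]; linarith
  have hS : ∑ x, ss e (f x) ≤ (1 + e) / e * ∑ x, f x ^ 2 := by
    rw [Finset.mul_sum]
    refine Finset.sum_le_sum (fun x _ => ?_)
    unfold ss; split_ifs with h
    · rw [h]; linarith
    · linarith
  have hssnn : ∀ x, 0 ≤ ss e (f x) := by
    intro x; unfold ss; split_ifs
    · norm_num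
    · positivity
  have hS0 : 0 < ∑ x, ss e (f x) := by
    obtain ⟨w, hw⟩ := hne
    have h1 : ss e (f w) = 1 := by rw [hW w hw]; simp [ss]
    have := Finset.single_le_sum (f := fun x => ss e (f x)) (fun x _ => hssnn x) (mem_univ w)
    simp only [h1] at this
    linarith
  have hG : (1 - e) * W.card ≤ log 2 * ∑ x, gg e (f x) := by
    have h1 : ∑ x ∈ W, gg e (f x) = W.card * ((1 - e) / log 2) := by
      rw [Finset.sum_congr rfl (fun x hx => by rw [hW x hx]; simp [gg]) (g := fun _ => (1 - e) / log 2)]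
      rw [Finset.sum_const, nsmul_eq_mul]
    have h2 : ∑ x ∈ W, gg e (f x) ≤ ∑ x, gg e (f x) :=
      Finset.sum_le_sum_of_subset_of_nonneg (Finset.subset_univ _) (fun x _ _ => by
        unfold gg; split_ifs
        · exact div_nonneg (by linarith) hl.le
        · exact le_refl _)
    calc (1 - e) * W.card = log 2 * (W.card * ((1 - e) / log 2)) := by field_simp
      _ ≤ _ := by rw [← h1]; exact mul_le_mul_of_nonneg_left h2 hl.le
  have hQ0 : 0 < ∑ x, f x ^ 2 := by
    by_contra h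
    have : ∑ x, f x ^ 2 = 0 := le_antisymm (not_lt.1 h) (Finset.sum_nonneg (fun x _ => sq_nonneg _))
    rw [this, mul_zero] at hS
    linarith
  have hN : (0 : ℝ) < 2 ^ d := by positivity
  have hlog : log (e / (1 + e) * (2 ^ d / ∑ x, f x ^ 2)) ≤ - log ((∑ x, ss e (f x)) / 2 ^ d) := by
    rw [← log_inv]
    refine log_le_log (by positivity) ?_
    rw [inv_div]
    have : e / (1 + e) * (2 ^ d / ∑ x, f x ^ 2) = 2 ^ d / ((1 + e) / e * ∑ x, f x ^ 2) := by
      field_simp
    rw [this]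
    exact div_le_div_of_nonneg_left hN.le hS0 hS
  by_cases hpos : 0 ≤ log (e / (1 + e) * (2 ^ d / ∑ x, f x ^ 2))
  · have hb : 0 ≤ - log ((∑ x, ss e (f x)) / 2 ^ d) := hpos.trans hlog
    have hWnn : 0 ≤ (1 - e) * W.card := mul_nonneg (by linarith) (Nat.cast_nonneg _)
    calc 2 * (1 - e) * W.card * log (e / (1 + e) * (2 ^ d / ∑ x, f x ^ 2))
        = 2 * ((1 - e) * W.card) * log (e / (1 + e) * (2 ^ d / ∑ x, f x ^ 2)) := by ring
      _ ≤ 2 * ((1 - e) * W.card) * (- log ((∑ x, ss e (f x)) / 2 ^ d)) :=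
          mul_le_mul_of_nonneg_left hlog (by linarith)
      _ ≤ 2 * (log 2 * ∑ x, gg e (f x)) * (- log ((∑ x, ss e (f x)) / 2 ^ d)) :=
          mul_le_mul_of_nonneg_right (by linarith) hb
      _ = log 2 * (-2 * (∑ x, gg e (f x)) * log ((∑ x, ss e (f x)) / 2 ^ d)) := by ring
      _ ≤ log 2 * D f := mul_le_mul_of_nonneg_left hmain hl.le
  · have h1 : 2 * (1 - e) * W.card * log (e / (1 + e) * (2 ^ d / ∑ x, f x ^ 2)) ≤ 0 := by
      refine mul_nonpos_of_nonneg_of_nonpos ?_ (not_le.1 hpos).le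
      have : 0 ≤ 1 - e := by linarith
      positivity
    have h2 : 0 ≤ log 2 * D f := mul_nonneg hl.le (D_nonneg f)
    linarith

end Pool.Agent.helper16.DH
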