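import Pool.Agent.helper65.HC.Exact

/-!
# Sets with small edge boundary, and the upper bound for `d - λ`
-/

namespace Pool.Agent.helper16.DH
open Finset Pool.Agent.helper65.HC Real

/-- Gibbs inequality with the weights `1/4, 3/4`. -/
lemma gibbs (N r : ℝ) (hN : 0 < N) (hr : 0 < r) :
    (N + r) * log (N + r) - N * log N - r * log r ≤ log 2 * (N / 2 + 2 * r) := by
  have h1 : log ((1 / 4) * ((N + r) / r)) ≤ (1 / 4) * ((N + r) / r) - 1 :=
    log_le_sub_one_of_pos (by positivity)
  have h2 : log ((3 / 4) * ((N + r) / N)) ≤ (3 / 4) * ((N + r) / N) - 1 :=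
    log_le_sub_one_of_pos (by positivity)
  rw [log_mul (by norm_num) (by positivity), log_div (show N + r ≠ 0 by positivity) hr.ne'] at h1
  rw [log_mul (by norm_num) (by positivity), log_div (show N + r ≠ 0 by positivity) hN.ne'] at h2
  have e1 : r * ((1 / 4) * ((N + r) / r) - 1) = (1 / 4) * (N + r) - r := by field_simp
  have e2 : N * ((3 / 4) * ((N + r) / N) - 1) = (3 / 4) * (N + r) - N := by field_simp
  have h1' := mul_le_mul_of_nonneg_left h1 hr.le
  have h2' := mul_le_mul_of_nonneg_left h2 hN.le
  rw [e1] at h1'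
  rw [e2] at h2'
  have l4 : log (1 / 4 : ℝ) = - (2 * log 2) := by
    rw [one_div, log_inv, show (4 : ℝ) = 2 ^ 2 by norm_num, log_pow]; push_cast; ring
  have l34 : - (log 2 / 2) ≤ log (3 / 4 : ℝ) := by
    have : log (1 / 2 : ℝ) ≤ log ((3 / 4) ^ 2) := log_le_log (by norm_num) (by norm_num)
    rw [log_pow, one_div, log_inv] at this
    push_cast at this
    linarith
  rw [l4] at h1'
  have h3 : N * (- (log 2 / 2)) ≤ N * log (3 / 4 : ℝ) := mul_le_mul_of_nonneg_left l34 hN.le
  nlinarith

/-- sets of every size with small edge boundary, as `0/1` functions -/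
lemma seg : ∀ (d w : ℕ), 1 ≤ w → w ≤ 2 ^ d → ∃ f : V d → ℝ, (∀ x, f x = 0 ∨ f x = 1) ∧
    ∑ x, f x = w ∧ log 2 * D f ≤ 2 * w * (log (2 ^ d / w) + log 2 / 2)
  | 0, w, h1, h2 => by
    have hw : w = 1 := by simpa using le_antisymm h2 h1
    subst hw
    refine ⟨fun _ => 1, fun _ => Or.inr rfl, ?_, ?_⟩
    · simp
    · have hD : D (fun _ : V 0 => (1 : ℝ)) = 0 := by unfold D; simp
      rw [hD]
      have : 0 < log 2 := log_pos (by norm_num)
      simp only [pow_zero, Nat.cast_one, div_one, log_one, zero_add, mul_zero, mul_one]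
      linarith
  | d + 1, w, h1, h2 => by
    have hl : 0 < log 2 := log_pos (by norm_num)
    have hw0 : (0 : ℝ) < w := by exact_mod_cast h1
    have hN : (0 : ℝ) < 2 ^ d := by positivity
    by_cases hc : w ≤ 2 ^ d
    · obtain ⟨f, f01, fs, fD⟩ := seg d w h1 hc
      refine ⟨fun x => if x 0 then 0 else f (fun i => x i.succ), fun x => ?_, ?_, ?_⟩
      · by_cases hx : x 0
        · left; simp [hx]
        · simp only [hx]; exact f01 _
      · rw [helper65.HC.sum_cons]; simp [fs]
      · rw [D_cons]
        have e1 : (fun z : V d => (fun x : V (d + 1) => if x 0 then (0 : ℝ) else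
            f (fun i => x i.succ)) (Fin.cons false z)) = f := by
          funext z; simp
        have e2 : (fun z : V d => (fun x : V (d + 1) => if x 0 then (0 : ℝ) else
            f (fun i => x i.succ)) (Fin.cons true z)) = fun _ => 0 := by
          funext z; simp
        rw [e1, e2]
        have hD0 : D (fun _ : V d => (0 : ℝ)) = 0 := by unfold D; simp
        have hsq : ∑ z : V d, ((fun x : V (d + 1) => if x 0 then (0 : ℝ) else
            f (fun i => x i.succ)) (Fin.cons false z) - (fun x : V (d + 1) => if x 0 then (0 : ℝ) else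
            f (fun i => x i.succ)) (Fin.cons true z)) ^ 2 = w := by
          rw [← fs]
          refine Finset.sum_congr rfl (fun z _ => ?_)
          simp only [Fin.cons_zero, Fin.cons_succ, if_true, sub_zero, Bool.false_eq_true, if_false]
          rcases f01 z with h | h <;> rw [h] <;> norm_num
        rw [hD0, hsq, pow_succ]
        have : log (2 ^ d * 2 / w) = log (2 ^ d / w) + log 2 := by
          rw [show (2 : ℝ) ^ d * 2 / w = (2 ^ d / w) * 2 by ring, log_mul (by positivity) (by norm_num)]
        rw [this]; nlinarith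
    · push Not at hc
      obtain ⟨r, rfl⟩ := Nat.exists_eq_add_of_lt hc
      have hr2 : r + 1 ≤ 2 ^ d := by rw [pow_succ] at h2; omega
      obtain ⟨f, f01, fs, fD⟩ := seg d (r + 1) (by omega) hr2
      refine ⟨fun x => if x 0 then f (fun i => x i.succ) else 1, fun x => ?_, ?_, ?_⟩
      · by_cases hx : x 0
        · simp only [hx]; exact f01 _
        · right; simp [hx]
      · rw [helper65.HC.sum_cons]; simp [fs]; push_cast; ring
      · rw [D_cons]
        have e1 : (fun z : V d => (fun x : V (d + 1) => if x 0 then f (fun i => x i.succ) else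
            (1 : ℝ)) (Fin.cons false z)) = fun _ => 1 := by
          funext z; simp
        have e2 : (fun z : V d => (fun x : V (d + 1) => if x 0 then f (fun i => x i.succ) else
            (1 : ℝ)) (Fin.cons true z)) = f := by
          funext z; simp
        rw [e1, e2]
        have hD1 : D (fun _ : V d => (1 : ℝ)) = 0 := by unfold D; simp
        have hsq : ∑ z : V d, ((fun x : V (d + 1) => if x 0 then f (fun i => x i.succ) else
            (1 : ℝ)) (Fin.cons false z) - (fun x : V (d + 1) => if x 0 then
            f (fun i => x i.succ) else (1 : ℝ)) (Fin.cons true z)) ^ 2 = 2 ^ d - ((r + 1 : ℕ) : ℝ) := by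
          have hcard : ∑ _z : V d, (1 : ℝ) = 2 ^ d := by simp
          rw [← fs, ← hcard, ← Finset.sum_sub_distrib]
          refine Finset.sum_congr rfl (fun z _ => ?_)
          simp only [Fin.cons_zero, Fin.cons_succ, if_true, Bool.false_eq_true, if_false]
          rcases f01 z with h | h <;> rw [h] <;> norm_num
        rw [hD1, hsq]
        have hr0 : (0 : ℝ) < ((r + 1 : ℕ) : ℝ) := by positivity
        have hg := gibbs (2 ^ d) ((r + 1 : ℕ) : ℝ) hN hr0
        have ec : ((2 ^ d + r + 1 : ℕ) : ℝ) = 2 ^ d + ((r + 1 : ℕ) : ℝ) := by push_cast; ring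
        rw [ec]
        set R : ℝ := ((r + 1 : ℕ) : ℝ) with hR
        set N : ℝ := 2 ^ d with hNd
        have l1 : log (2 ^ (d + 1) / (N + R)) = log N + log 2 - log (N + R) := by
          rw [pow_succ, log_div (by positivity) (by positivity), log_mul (by positivity) (by norm_num)]
        have l2 : log (N / R) = log N - log R := log_div hN.ne' hr0.ne'
        rw [l1]
        rw [l2] at fD
        nlinarith

/-- The upper bound for `d - λ_d(2^d - w)`. -/
theorem upper_gap (d w : ℕ) (hw : 1 ≤ w) (h2 : 2 * w ≤ 2 ^ d) :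
    d - lam d (2 ^ d - w) ≤ (w / 2 ^ d) * (logb 2 (2 ^ d / w) + 2) := by
  have hl : 0 < log 2 := log_pos (by norm_num)
  have hw0 : (0 : ℝ) < w := by exact_mod_cast hw
  have hN : (0 : ℝ) < 2 ^ d := by positivity
  have hlt : w ≤ 2 ^ d := by omega
  obtain ⟨f, f01, fs, fD⟩ := seg d w hw hlt
  have h2' : 2 * (w : ℝ) ≤ 2 ^ d := by exact_mod_cast h2
  set U : Finset (V d) := univ.filter (fun x => f x = 0) with hU
  set g : V d → ℝ := fun x => 1 - f x with hg
  have hg01 : ∀ x, g x ^ 2 = g x := by
    intro x; rcases f01 x with h | h <;> simp [hg, h]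
  have hgs : ∑ x, g x ^ 2 = 2 ^ d - w := by
    rw [Finset.sum_congr rfl (fun x _ => hg01 x), ← fs]
    simp [hg]
  have hcard : (U.card : ℝ) = 2 ^ d - w := by
    rw [← hgs, hU, Finset.card_filter]
    push_cast
    refine Finset.sum_congr rfl (fun x _ => ?_)
    rcases f01 x with h | h <;> simp [hg, h]
  have hcardN : U.card = 2 ^ d - w := by
    have : (U.card : ℝ) = ((2 ^ d - w : ℕ) : ℝ) := by
      rw [hcard, Nat.cast_sub hlt]; push_cast; ring
    exact_mod_cast this
  have hDg : D g = D f := by
    unfold D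
    refine Finset.sum_congr rfl (fun x _ => Finset.sum_congr rfl (fun i _ => ?_))
    simp only [hg]; ring
  have hpos : 0 < ∑ x, g x ^ 2 := by rw [hgs]; linarith
  have hDe := D_eq g
  have key := lam_ge U hcardN g (fun x hx => by
      have : f x = 1 := by
        rcases f01 x with h | h
        · exact absurd (by simp [hU, h]) hx
        · exact h
      simp [hg, this]) hpos (d - D f / (2 * (2 ^ d - w))) (by
      rw [hDg] at hDe
      have e : (d - D f / (2 * (2 ^ d - w))) * ∑ x, g x ^ 2 = d * ∑ x, g x ^ 2 - D f / 2 := by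
        rw [hgs]
        have : (2 : ℝ) ^ d - w ≠ 0 := by linarith
        field_simp
      rw [e]; linarith)
  have hx2 : 2 ≤ (2 : ℝ) ^ d / w := by rw [le_div_iff₀ hw0]; linarith
  set X : ℝ := 2 ^ d / w with hX
  have hlX : log X ≤ log 2 + (X / 2 - 1) := by
    have := log_le_sub_one_of_pos (show 0 < X / 2 by linarith)
    rw [log_div (by linarith) (by norm_num)] at this
    linarith
  have h23 : (2 / 3 : ℝ) ≤ log 2 := by have := Real.log_two_gt_d9; linarith
  have hD2 : D f / (2 * (2 ^ d - w)) ≤ (w / 2 ^ d) * (logb 2 X + 2) := by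
    rw [div_le_iff₀ (by linarith)]
    have e1 : log 2 * (w / 2 ^ d * (logb 2 X + 2) * (2 * (2 ^ d - w))) =
        2 * w * (1 - w / 2 ^ d) * (log X + 2 * log 2) := by
      unfold logb; field_simp
    have e2 : (w : ℝ) / 2 ^ d = 1 / X := by rw [hX]; field_simp
    have hgoal : 2 * w * (log X + log 2 / 2) ≤ 2 * w * (1 - 1 / X) * (log X + 2 * log 2) := by
      have h3 : (1 / X) * (log X + 2 * log 2) ≤ (3 / 2) * log 2 := by
        rw [div_mul_eq_mul_div, one_mul, div_le_iff₀ (by linarith)]
        nlinarith
      have h4 : log X + log 2 / 2 ≤ (1 - 1 / X) * (log X + 2 * log 2) := by linarith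
      calc 2 * w * (log X + log 2 / 2) ≤ 2 * w * ((1 - 1 / X) * (log X + 2 * log 2)) :=
            mul_le_mul_of_nonneg_left h4 (by positivity)
        _ = _ := by ring
    have : log 2 * D f ≤ log 2 * (w / 2 ^ d * (logb 2 X + 2) * (2 * (2 ^ d - w))) := by
      rw [e1, e2]; exact fD.trans hgoal
    exact le_of_mul_le_mul_left this hl
  linarith

end Pool.Agent.helper16.DH
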