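import Pool.Agent.helper16.DH.B
import Pool.Agent.helper16.DH.E

/-!
# The lower bound for `d - λ` at the dense end, with an explicit error term
-/

namespace Pool.Agent.helper16.DH
open Finset Pool.Agent.helper65.HC Real

/-- chord of the logarithm -/
lemma log_chord (x y s : ℝ) (hx : 0 < x) (hy : 0 < y) (h0 : 0 ≤ s) (h1 : s ≤ 1) :
    (1 - s) * log x + s * log y ≤ log ((1 - s) * x + s * y) := by
  have h := strictConcaveOn_log_Ioi.concaveOn.2 (Set.mem_Ioi.2 hx) (Set.mem_Ioi.2 hy)
    (show 0 ≤ 1 - s by linarith) h0 (by ring)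
  simpa [smul_eq_mul] using h

/-- the numerical last step -/
lemma last (X g : ℝ) (hX : 1 ≤ X) (hg0 : 0 < g)
    (key : g < 2 → ∀ e : ℝ, 0 < e → e ≤ 1 →
      (1 - g / 2) * (1 - e) * (1 / X) * log (e / (1 + e) * ((2 - g) / g)) ≤ g * log 2) :
    (1 / X) * (logb 2 X - 2 * logb 2 (logb 2 X + 1)) ≤ g := by
  have hl : 0 < log 2 := log_pos (by norm_num)
  have hl2 := Real.log_two_gt_d9
  set l := logb 2 X with hldef
  have hX0 : 0 < X := by linarith
  have hl0 : 0 ≤ l := logb_nonneg (by norm_num) hX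
  set A := logb 2 (l + 1) with hA
  have hlX : log X = l * log 2 := by rw [hldef]; unfold logb; field_simp
  have hAl : log (l + 1) = A * log 2 := by rw [hA]; unfold logb; field_simp
  by_contra hcon
  push Not at hcon
  have hY : 0 < l - 2 * A := by
    by_contra h
    push Not at h
    have : (1 / X) * (l - 2 * A) ≤ 0 := mul_nonpos_of_nonneg_of_nonpos (by positivity) h
    linarith
  have h36 : 5 * log 2 ≤ 2 * log 6 := by
    have : log (2 ^ 5 : ℝ) ≤ log (6 ^ 2 : ℝ) := log_le_log (by norm_num) (by norm_num)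
    rw [log_pow, log_pow] at this
    push_cast at this
    exact this
  have hl5 : 5 < l := by
    by_contra h
    push Not at h
    have h1 := log_chord 1 6 (l / 5) (by norm_num) (by norm_num) (by positivity) (by linarith)
    have e : (1 - l / 5) * 1 + l / 5 * 6 = l + 1 := by ring
    rw [log_one, mul_zero, zero_add, e, hAl] at h1
    have h2 : l / 5 * (5 * log 2) ≤ l / 5 * (2 * log 6) := mul_le_mul_of_nonneg_left h36 (by positivity)
    have h3 : l * log 2 ≤ 2 * A * log 2 := by linarith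
    have := le_of_mul_le_mul_right h3 hl
    linarith
  have hA5 : 5 / 2 ≤ A := by
    have h1 : log 6 ≤ log (l + 1) := log_le_log (by norm_num) (by linarith)
    rw [hAl] at h1
    have h2 : 5 / 2 * log 2 ≤ A * log 2 := by linarith
    exact le_of_mul_le_mul_right h2 hl
  have hcube : l ^ 3 ≤ 8 * X := by
    have h1 := Real.add_one_le_exp (l * log 2 / 3 - 1)
    rw [sub_add_cancel] at h1
    have h2 : (l * log 2 / 3) ^ 3 ≤ exp (l * log 2 / 3 - 1) ^ 3 :=
      pow_le_pow_left₀ (by positivity) h1 3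
    have h3 : exp (l * log 2 / 3 - 1) ^ 3 = X * exp (-1) ^ 3 := by
      rw [← exp_nat_mul, ← exp_nat_mul, show ((3 : ℕ) : ℝ) * (l * log 2 / 3 - 1) = l * log 2 +
        ((3 : ℕ) : ℝ) * (-1) by push_cast; ring, exp_add, ← hlX, exp_log hX0]
    rw [h3] at h2
    have h4 : exp (-1) ≤ 0.368 := by
      rw [exp_neg]
      have := Real.exp_one_gt_d9
      rw [inv_le_comm₀ (exp_pos 1) (by norm_num)]
      have : (0.368 : ℝ)⁻¹ ≤ 2.7182818283 := by norm_num
      linarith
    have h5 : exp (-1) ^ 3 ≤ 0.368 ^ 3 := pow_le_pow_left₀ (exp_pos _).le h4 3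
    have h6 : (0.6931 : ℝ) ^ 3 ≤ log 2 ^ 3 := pow_le_pow_left₀ (by norm_num) (by linarith) 3
    have h7 : l ^ 3 * 0.6931 ^ 3 ≤ l ^ 3 * log 2 ^ 3 := mul_le_mul_of_nonneg_left h6 (by positivity)
    have h8 : X * exp (-1) ^ 3 ≤ X * 0.368 ^ 3 := mul_le_mul_of_nonneg_left h5 hX0.le
    have h9 : (l * log 2 / 3) ^ 3 = l ^ 3 * log 2 ^ 3 / 27 := by ring
    rw [h9] at h2
    have h10 : l ^ 3 * 0.6931 ^ 3 ≤ 27 * (X * 0.368 ^ 3) := by linarith
    nlinarith
  set Y := l - 2 * A with hYdef
  have hgl : g < (1 / X) * l := by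
    have : (1 / X) * Y ≤ (1 / X) * l := mul_le_mul_of_nonneg_left (by rw [hYdef]; linarith) (by positivity)
    linarith
  have hglX : g * X < l := by
    rw [one_div, inv_mul_eq_div, lt_div_iff₀ hX0] at hgl
    exact hgl
  have hgYX : g * X < Y := by
    rw [one_div, inv_mul_eq_div, lt_div_iff₀ hX0] at hcon
    exact hcon
  have hlX8 : l * (g / 2) ≤ 4 / l := by
    rw [le_div_iff₀ (by linarith)]
    have h1 : g * l ^ 3 ≤ g * (8 * X) := mul_le_mul_of_nonneg_left hcube hg0.le
    have h2 : l * (g / 2) * l = g * l ^ 2 / 2 := by ring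
    have : g * l ^ 2 ≤ 8 := by
      have h3 : (g * l ^ 2) * l ≤ 8 * l := by
        have : (g * l ^ 2) * l = g * l ^ 3 := by ring
        linarith
      exact le_of_mul_le_mul_right h3 (by linarith)
    linarith
  have hg1 : g ≤ 1 := by
    have h1 : l * (g / 2) ≤ 4 / 5 := hlX8.trans (by
      rw [div_le_div_iff₀ (by linarith) (by norm_num)]; linarith)
    nlinarith
  have hk := key (by linarith) (1 / l) (by positivity) (by
    rw [div_le_one (by linarith)]; linarith)
  have e1 : 1 / l / (1 + 1 / l) * ((2 - g) / g) = (2 - g) / ((l + 1) * g) := by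
    field_simp
  rw [e1, log_div (by linarith) (by positivity), log_mul (by linarith) hg0.ne', hAl] at hk
  have hlog2g : (1 - g) * log 2 ≤ log (2 - g) := by
    have h1 := log_chord 2 1 g (by norm_num) (by norm_num) hg0.le hg1
    rw [log_one, mul_zero, add_zero] at h1
    have e : (1 - g) * 2 + g * 1 = 2 - g := by ring
    rwa [e] at h1
  have hlogg : log g ≤ A * log 2 - l * log 2 := by
    have h1 : g ≤ (l + 1) / X := by
      rw [le_div_iff₀ hX0]; linarith
    have h2 := log_le_log hg0 h1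
    rw [log_div (by linarith) hX0.ne', hAl, hlX] at h2
    exact h2
  have hlow : (Y + 1 - g) * log 2 ≤ log (2 - g) - (A * log 2 + log g) := by
    rw [hYdef]; nlinarith
  have hb0 : 0 < 1 / X := by positivity
  have hl1 : 0 ≤ 1 - 1 / l := by
    have : 1 / l ≤ 1 := by rw [div_le_one (by linarith)]; linarith
    linarith
  have hc0 : 0 ≤ (1 - g / 2) * (1 - 1 / l) * (1 / X) :=
    mul_nonneg (mul_nonneg (by linarith) hl1) hb0.le
  have h1 : (1 - g / 2) * (1 - 1 / l) * (1 / X) * ((Y + 1 - g) * log 2) ≤ g * log 2 :=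
    (mul_le_mul_of_nonneg_left hlow hc0).trans hk
  have h2 : (1 - g / 2) * (1 - 1 / l) * (1 / X) * (Y + 1 - g) ≤ g := by
    have : (1 - g / 2) * (1 - 1 / l) * (1 / X) * (Y + 1 - g) * log 2 ≤ g * log 2 := by
      linarith
    exact le_of_mul_le_mul_right this hl
  have h3 : Y + 4 / l - g ≤ (1 - 1 / l) * (Y + 1 - g) := by
    have e2 : (1 - 1 / l) * (Y + 1 - g) = Y + (l - Y - 1) / l - g + g / l := by
      field_simp; ring
    rw [e2]
    have h4 : 4 / l ≤ (l - Y - 1) / l := by
      apply div_le_div_of_nonneg_right _ (by linarith)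
      rw [hYdef]; linarith
    have h5 : 0 ≤ g / l := by positivity
    linarith
  have h4 : Y ≤ (1 - g / 2) * ((1 - 1 / l) * (Y + 1 - g)) := by
    have h5 : (1 - g / 2) * (Y + 4 / l - g) ≤ (1 - g / 2) * ((1 - 1 / l) * (Y + 1 - g)) :=
      mul_le_mul_of_nonneg_left h3 (by linarith)
    have h6 : 4 / l ≤ 1 := by rw [div_le_one (by linarith)]; linarith
    have h7 : g / 2 * (Y + 3) ≤ 4 / l := by
      refine le_trans ?_ hlX8
      have : Y + 3 ≤ l := by rw [hYdef]; linarith
      nlinarith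
    nlinarith
  have h5 : (1 / X) * Y ≤ g := by
    calc (1 / X) * Y ≤ (1 / X) * ((1 - g / 2) * ((1 - 1 / l) * (Y + 1 - g))) :=
          mul_le_mul_of_nonneg_left h4 hb0.le
      _ = (1 - g / 2) * (1 - 1 / l) * (1 / X) * (Y + 1 - g) := by ring
      _ ≤ g := h2
  linarith

/-- The lower bound for `d - t` for every eigenvalue `t` of `Q_d[U]`, `w` the number of missing
vertices. -/
theorem lower_gap {d : ℕ} {U : Finset (V d)} {t : ℝ} (h : IsEig U t) (w : ℕ) (hw : 1 ≤ w)
    (hU : U.card + w = 2 ^ d) :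
    (w / 2 ^ d) * (logb 2 (2 ^ d / w) - 2 * logb 2 (logb 2 (2 ^ d / w) + 1)) ≤ d - t := by
  classical
  have hl : 0 < log 2 := log_pos (by norm_num)
  obtain ⟨f, hf, hpos, hD⟩ := eig_D h
  set g := (d : ℝ) - t with hg
  have hN : (0 : ℝ) < 2 ^ d := by positivity
  set N : ℝ := 2 ^ d with hNd
  set F : V d → ℝ := fun x => |f x| with hF
  set S := ∑ x, f x ^ 2 with hS
  have hFS : ∑ x, F x ^ 2 = S := Finset.sum_congr rfl (fun x _ => sq_abs _)
  have hDF : D F ≤ 2 * g * S := by rw [← hD]; exact D_abs f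
  have hFnn : ∀ x, 0 ≤ F x := fun x => abs_nonneg _
  have hsum0 : 0 < ∑ x, F x := by
    refine lt_of_le_of_ne (Finset.sum_nonneg (fun x _ => hFnn x)) (fun h0 => ?_)
    have h1 := (Finset.sum_eq_zero_iff_of_nonneg (fun x _ => hFnn x)).1 h0.symm
    have : ∑ x, F x ^ 2 = 0 := Finset.sum_eq_zero (fun x hx => by rw [h1 x hx]; norm_num)
    rw [hFS] at this
    linarith
  set c := (∑ x, F x) / N with hc
  have hc0 : 0 < c := div_pos hsum0 hN
  have hcN : ∑ x, F x = c * N := by rw [hc]; field_simp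
  set φ : V d → ℝ := fun x => 1 - F x / c with hφ
  set k : V d → ℝ := fun x => max (1 - F x / c) 0 with hk
  have hcard : ∑ _x : V d, (1 : ℝ) = N := by simp [hNd]
  have hφs : ∑ x, φ x = 0 := by
    simp only [hφ]
    rw [Finset.sum_sub_distrib, hcard, ← Finset.sum_div, hcN]
    field_simp
    ring
  have hφ2 : ∑ x, φ x ^ 2 = S / c ^ 2 - N := by
    have e : ∀ x, φ x ^ 2 = 1 - 2 * (F x / c) + F x ^ 2 / c ^ 2 := by
      intro x; simp only [hφ]; field_simp; ring
    rw [Finset.sum_congr rfl (fun x _ => e x), Finset.sum_add_distrib, Finset.sum_sub_distrib,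
      hcard, ← Finset.mul_sum, ← Finset.sum_div, ← Finset.sum_div, hcN, hFS]
    field_simp
    ring
  have hDφ : D φ = D F / c ^ 2 := by
    unfold D
    rw [Finset.sum_div]
    refine Finset.sum_congr rfl (fun x _ => ?_)
    rw [Finset.sum_div]
    refine Finset.sum_congr rfl (fun i _ => ?_)
    simp only [hφ]; field_simp; ring
  have hDk : D k ≤ D φ := by
    unfold D
    refine Finset.sum_le_sum (fun x _ => Finset.sum_le_sum (fun i _ => ?_))
    refine sq_le_sq.2 ?_
    simp only [hk, hφ]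
    exact abs_max_sub_max_le_abs _ _ _
  have hk2 : ∑ x, k x ^ 2 ≤ ∑ x, φ x ^ 2 := by
    refine Finset.sum_le_sum (fun x _ => ?_)
    simp only [hk, hφ]
    rcases le_total (1 - F x / c) 0 with h1 | h1
    · rw [max_eq_right h1]; nlinarith [sq_nonneg (1 - F x / c)]
    · rw [max_eq_left h1]
  have hk0 : ∀ x, 0 ≤ k x := fun x => le_max_right _ _
  have hk1 : ∀ x, k x ≤ 1 := by
    intro x
    simp only [hk]
    refine max_le ?_ zero_le_one
    have : 0 ≤ F x / c := div_nonneg (hFnn x) hc0.le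
    linarith
  set W : Finset (V d) := Uᶜ with hWd
  have hWk : ∀ x ∈ W, k x = 1 := by
    intro x hx
    have hxU : x ∉ U := Finset.mem_compl.1 hx
    simp only [hk, hF]
    rw [hf x hxU]
    simp
  have hWcard : W.card = w := by
    rw [hWd, Finset.card_compl, Fintype.card_fun, Fintype.card_bool, Fintype.card_fin]
    omega
  have hWne : W.Nonempty := Finset.card_pos.1 (by omega)
  have hw0 : (0 : ℝ) < w := by exact_mod_cast hw
  have hkpos : 0 < ∑ x, k x ^ 2 := by
    obtain ⟨x, hx⟩ := hWne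
    have := Finset.single_le_sum (f := fun x => k x ^ 2) (fun x _ => sq_nonneg _) (mem_univ x)
    simp only [hWk x hx] at this
    linarith
  have hpoin := poincare d φ
  rw [hφs, hDφ, hφ2] at hpoin
  have hDFc : D F / c ^ 2 ≤ 2 * g * (S / c ^ 2) := by
    rw [mul_div_assoc']
    exact div_le_div_of_nonneg_right hDF (by positivity)
  set R := S / c ^ 2 with hR
  have hRN : 0 < R - N := by rw [← hφ2]; linarith
  have hpoin2 : 4 * (R - N) ≤ 2 * g * R := by
    have e : 4 * (0 : ℝ) ^ 2 / 2 ^ d = 0 := by simp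
    rw [e, add_zero] at hpoin
    linarith
  have hRpos : 0 < R := by linarith
  have hg0 : 0 < g := by
    by_contra h0
    push Not at h0
    have : 2 * g * R ≤ 0 := by nlinarith
    linarith
  have hfun := fun e he he1 => functional d k hk0 hk1 e he he1 W hWk hWne
  have hX1 : 1 ≤ N / w := by
    rw [le_div_iff₀ hw0, one_mul, hNd]
    have : w ≤ 2 ^ d := by omega
    exact_mod_cast this
  have hres := last (N / w) g hX1 hg0 (fun hg2 e he he1 => by
    have h1 := hfun e he he1
    have h2 : (R - N) * (2 - g) ≤ g * N := by nlinarith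
    have h3 : R * (2 - g) ≤ 2 * N := by nlinarith
    have hD2 : log 2 * D k ≤ log 2 * (2 * g * R) :=
      mul_le_mul_of_nonneg_left (hDk.trans (by rw [hDφ]; exact hDFc)) hl.le
    have h4 : log (e / (1 + e) * ((2 - g) / g)) ≤ log (e / (1 + e) * (2 ^ d / ∑ x, k x ^ 2)) := by
      refine log_le_log (by have : 0 < 2 - g := by linarith
                            positivity) ?_
      refine mul_le_mul_of_nonneg_left ?_ (by positivity)
      rw [div_le_div_iff₀ hg0 hkpos]
      have h5 : ∑ x, k x ^ 2 ≤ R - N := by rw [← hφ2]; exact hk2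
      have h6 : (2 - g) * ∑ x, k x ^ 2 ≤ (2 - g) * (R - N) :=
        mul_le_mul_of_nonneg_left h5 (by linarith)
      have h7 : (2 : ℝ) ^ d * g = g * N := by rw [hNd]; ring
      rw [h7]
      linarith
    rw [hWcard] at h1
    have h5 : 2 * (1 - e) * w * log (e / (1 + e) * ((2 - g) / g)) ≤ log 2 * (2 * g * R) := by
      refine le_trans ?_ (h1.trans hD2)
      exact mul_le_mul_of_nonneg_left h4 (mul_nonneg (mul_nonneg (by norm_num) (by linarith)) hw0.le)
    have h6 : (1 - g / 2) * (2 * (1 - e) * w * log (e / (1 + e) * ((2 - g) / g))) ≤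
        (1 - g / 2) * (log 2 * (2 * g * R)) := mul_le_mul_of_nonneg_left h5 (by linarith)
    have h7 : (1 - g / 2) * (log 2 * (2 * g * R)) ≤ 2 * N * (g * log 2) := by
      have : (1 - g / 2) * (log 2 * (2 * g * R)) = log 2 * g * (R * (2 - g)) := by ring
      rw [this]
      have h8 : log 2 * g * (R * (2 - g)) ≤ log 2 * g * (2 * N) :=
        mul_le_mul_of_nonneg_left h3 (by positivity)
      linarith
    have h8 : 2 * N * ((1 - g / 2) * (1 - e) * (1 / (N / w)) * log (e / (1 + e) * ((2 - g) / g))) ≤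
        2 * N * (g * log 2) := by
      refine le_trans (le_of_eq ?_) (h6.trans h7)
      field_simp
    exact le_of_mul_le_mul_left h8 (by positivity))
  have e : 1 / (N / w) = w / 2 ^ d := by rw [hNd]; field_simp
  rw [e] at hres
  exact hres

end Pool.Agent.helper16.DH
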